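import Pool.Agent.V1176.TropMain

set_option autoImplicit false

namespace Pool.Agent.Results.MP_7d0545_co.ThreePlanes

open Pool.Agent.V1176.Trop

/-- There are balanced polyhedral complexes `S₁, S₂` in `ℝ⁴`, pure of dimension `2`, whose stable
intersection is nonempty, such that some connected component of `|S₁| ∩ |S₂|` contains no point
of the stable intersection.  Both complexes stay connected through codimension one after the
removal of at most one closed two-dimensional cell. -/
theorem result : ∃ (S₁ S₂ : BalancedComplex 4 2),
    (∀ R : Set S₁.ι, R.Subsingleton → (∀ r ∈ R, dim (S₁.cell r) = 2) → S₁.ConnectedOff R) ∧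
    (∀ R : Set S₂.ι, R.Subsingleton → (∀ r ∈ R, dim (S₂.cell r) = 2) → S₂.ConnectedOff R) ∧
    (stableSupport S₁ S₂).Nonempty ∧
    ∃ x ∈ S₁.support ∩ S₂.support,
      Disjoint (connectedComponentIn (S₁.support ∩ S₂.support) x) (stableSupport S₁ S₂) :=
  main

end Pool.Agent.Results.MP_7d0545_co.ThreePlanes
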